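import Pool.Agent.MP_d32a63_an.H58.Spec

/-! Row NODE: the discrete Whitney field on the nodes of a cell. -/

open Set Metric Polynomial
open Pool.Agent.MP_d32a63_an.H95 (jet)
open Pool.Agent.MP_d32a63_an.H58

namespace Pool.Agent.MP_d32a63_an.H5

noncomputable section

/-! ### Chains of steps -/

lemma line (φ : ℤ → ℂ) (A : ℝ) {a b : ℤ} (hab : a ≤ b)
    (h : ∀ t, a ≤ t → t < b → ‖φ (t + 1) - φ t‖ ≤ A) : ‖φ b - φ a‖ ≤ A * ((b - a : ℤ) : ℝ) := by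
  induction b, hab using Int.leInduction with
  | base => simp
  | succ b hab ih =>
    have h1 := ih fun t h1 h2 => h t h1 (by omega)
    have h2 := h b hab (by omega)
    have := norm_add_le (φ (b + 1) - φ b) (φ b - φ a)
    rw [sub_add_sub_cancel] at this
    push_cast at h1 ⊢
    linarith

lemma box (f : ℤ × ℤ → ℂ) (A : ℝ) (c p : ℤ × ℤ) (h1 : c.1 ≤ p.1) (h2 : c.2 ≤ p.2)
    (hx : ∀ s, c.1 ≤ s → s < p.1 → ‖f (s + 1, c.2) - f (s, c.2)‖ ≤ A)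
    (hy : ∀ t, c.2 ≤ t → t < p.2 → ‖f (p.1, t + 1) - f (p.1, t)‖ ≤ A) :
    ‖f p - f c‖ ≤ A * (((p.1 - c.1 : ℤ) : ℝ) + ((p.2 - c.2 : ℤ) : ℝ)) := by
  have a := line (fun s => f (s, c.2)) A h1 hx
  have b := line (fun t => f (p.1, t)) A h2 hy
  have := norm_add_le (f (p.1, p.2) - f (p.1, c.2)) (f (p.1, c.2) - f (c.1, c.2))
  rw [sub_add_sub_cancel] at this
  simp only [Prod.mk.eta] at a b this
  linarith

/-- A step to the right or upwards. -/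
def St (p p' : ℤ × ℤ) : Prop := p' = (p.1 + 1, p.2) ∨ p' = (p.1, p.2 + 1)

lemma St.nb {p p' : ℤ × ℤ} (h : St p p') : Nb p p' := h.elim Or.inl fun h => Or.inr (Or.inl h)

lemma one_le_dd (m m' : ℤ × ℤ) : 1 ≤ dd m m' := by
  have := abs_nonneg ((m.1 - m'.1 : ℤ) : ℝ)
  have := abs_nonneg ((m.2 - m'.2 : ℤ) : ℝ)
  rw [dd]
  linarith

lemma dd_le {m m' p : ℤ × ℤ} (a : min m.1 m'.1 ≤ p.1) (b : p.1 ≤ max m.1 m'.1)
    (c : min m.2 m'.2 ≤ p.2) (d : p.2 ≤ max m.2 m'.2) : dd m p ≤ dd m m' := by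
  have k : ∀ x y z : ℤ, min x y ≤ z → z ≤ max x y → |((x - z : ℤ) : ℝ)| ≤ |((x - y : ℤ) : ℝ)| := by
    intro x y z h1 h2
    rw [← Int.cast_abs, ← Int.cast_abs, Int.cast_le, abs_eq_max_neg, abs_eq_max_neg]
    omega
  have := k _ _ _ a b
  have := k _ _ _ c d
  rw [dd, dd]
  linarith

lemma chain {N : ℕ} (f : ℤ × ℤ → ℂ) {A : ℝ} (hA : 0 ≤ A) {m m' : ℤ × ℤ} (hm : Nd N m)
    (hm' : Nd N m')
    (h : ∀ p p', Nd N p → Nd N p' → St p p' → dd m p ≤ dd m m' → ‖f p' - f p‖ ≤ A) :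
    ‖f m' - f m‖ ≤ A * dd m m' := by
  obtain ⟨a1, a2, a3⟩ := hm
  obtain ⟨b1, b2, b3⟩ := hm'
  have k : ∀ p : ℤ × ℤ, p = m ∨ p = m' → ‖f p - f (min m.1 m'.1, min m.2 m'.2)‖ ≤
      A * (((p.1 - min m.1 m'.1 : ℤ) : ℝ) + ((p.2 - min m.2 m'.2 : ℤ) : ℝ)) := by
    intro p hp
    have q : min m.1 m'.1 ≤ p.1 ∧ p.1 ≤ max m.1 m'.1 ∧ min m.2 m'.2 ≤ p.2 ∧ p.2 ≤ max m.2 m'.2 ∧
        p.1 + p.2 ≤ N := by
      rcases hp with rfl | rfl <;> omega
    refine box f A (_, _) p q.1 q.2.2.1 (fun s h1 h2 => h _ _ ?_ ?_ (Or.inl rfl) (dd_le ?_ ?_ ?_ ?_))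
      (fun s h1 h2 => h _ _ ?_ ?_ (Or.inr rfl) (dd_le ?_ ?_ ?_ ?_)) <;>
    simp only [Nd] at * <;> omega
  have k1 := k m (Or.inl rfl)
  have k2 := k m' (Or.inr rfl)
  have k3 := norm_sub_le (f m' - f (min m.1 m'.1, min m.2 m'.2))
    (f m - f (min m.1 m'.1, min m.2 m'.2))
  rw [sub_sub_sub_cancel_right] at k3
  have e : ∀ x y : ℤ, ((x - min x y : ℤ) : ℝ) + ((y - min x y : ℤ) : ℝ) = |((x - y : ℤ) : ℝ)| := by
    intro x y
    rw [← Int.cast_abs, ← Int.cast_add, Int.cast_inj, abs_eq_max_neg]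
    omega
  rw [dd, ← e, ← e]
  linarith

/-! ### The field at one point -/

/-- The base of an upward triangle with vertex `m`. -/
def base (N : ℕ) (m : ℤ × ℤ) : ℤ × ℤ :=
  if m.1 + m.2 < N then m else if 0 < m.1 then (m.1 - 1, m.2) else (m.1, m.2 - 1)

def up {α : Type} (μ : ℤ × ℤ → ℤ × ℤ → α) (b : ℤ × ℤ) : α := μ b (b.1, b.2 + 1)

lemma base_nd {N : ℕ} (hN : 0 < N) {m : ℤ × ℤ} (h : Nd N m) :
    Nd N (base N m) ∧ Nd N ((base N m).1, (base N m).2 + 1) ∧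
      Nb (base N m) ((base N m).1, (base N m).2 + 1) := by
  refine ⟨?_, ?_, Or.inr (Or.inl rfl)⟩ <;>
  · simp only [Nd, base] at *
    split_ifs <;> (try simp only) <;> omega

structure Pt (N : ℕ) (B σ : ℝ) (s w col : ℤ × ℤ → ℂ) (U : ℂ) (μ : ℤ × ℤ → ℤ × ℤ → ℂ) : Prop where
  B1 : 1 ≤ B
  s0 : 0 ≤ σ
  h1 : ∀ m m', Nd N m → Nd N m' → Nb m m' →
    ‖s m' - s m - (w m' - w m + (col m' - col m) * U) * μ m m'‖ ≤ B * σ ^ 2
  h2 : ∀ m m', Nb m m' → ‖w m' - w m‖ ≤ 3 * σ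
  h3 : ‖U‖ ≤ B * σ
  h4 : ∀ m m', Nd N m → Nd N m' → Nb m m' → ‖μ m m'‖ ≤ B
  h5 : ∀ m m' m'', Nd N m → Nd N m' → Nd N m'' → Nb m m' → Nb m' m'' → Nb m m'' →
    ‖μ m m'' - μ m m'‖ ≤ B * σ ∧ ‖μ m m'' - μ m' m''‖ ≤ B * σ
  h6 : ∀ m, ‖col m‖ ≤ 2

namespace Pt

variable {N : ℕ} {B σ : ℝ} {s w col : ℤ × ℤ → ℂ} {U : ℂ} {μ : ℤ × ℤ → ℤ × ℤ → ℂ}

lemma upT (h : Pt N B σ s w col U μ) (a b : ℤ) (ha : 0 ≤ a) (hb : 0 ≤ b) (hab : a + b < N) :
    ‖up μ (a, b) - μ (a, b) (a + 1, b)‖ ≤ B * σ ∧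
      ‖up μ (a, b) - μ (a + 1, b) (a, b + 1)‖ ≤ B * σ :=
  h.h5 _ _ _ ⟨ha, hb, hab.le⟩ ⟨by omega, hb, by omega⟩ ⟨ha, by omega, by omega⟩ (Or.inl rfl)
    (Or.inr (Or.inr (by simp))) (Or.inr (Or.inl rfl))

lemma dnT (h : Pt N B σ s w col U μ) (a b : ℤ) (ha : 0 ≤ a) (hb : 0 ≤ b) (hab : a + b + 1 < N) :
    ‖up μ (a + 1, b) - up μ (a, b)‖ ≤ 2 * (B * σ) ∧
      ‖up μ (a, b + 1) - up μ (a + 1, b)‖ ≤ 2 * (B * σ) := by
  obtain ⟨h1, h2⟩ := h.h5 (a + 1, b) (a, b + 1) (a + 1, b + 1) ⟨by omega, hb, by omega⟩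
    ⟨ha, by omega, by omega⟩ ⟨by omega, by omega, by omega⟩ (Or.inr (Or.inr (by simp)))
    (Or.inl rfl) (Or.inr (Or.inl rfl))
  have h3 := norm_sub_le_of_le h1 (h.upT a b ha hb (by omega)).2
  have h4 := norm_sub_le_of_le (h.upT a (b + 1) ha (by omega) (by omega)).1 h2
  rw [sub_sub_sub_cancel_right] at h3 h4
  exact ⟨h3.trans_eq (by ring), h4.trans_eq (by ring)⟩

lemma step (h : Pt N B σ s w col U μ) {p p' : ℤ × ℤ} (hp : Nd N p) (hp' : Nd N p')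
    (hs : St p p') : ‖up μ (base N p') - up μ (base N p)‖ ≤ 4 * (B * σ) ∧
      ‖μ p p' - up μ (base N p)‖ ≤ B * σ := by
  have h0 : 0 ≤ B * σ := mul_nonneg (zero_le_one.trans h.B1) h.s0
  obtain ⟨a, b⟩ := p
  simp only [Nd] at hp
  rcases hs with rfl | rfl <;> simp only [Nd] at hp' <;>
    rw [show base N (a, b) = (a, b) from if_pos (by omega)]
  · refine ⟨?_, by rw [norm_sub_rev]; exact (h.upT a b hp.1 hp.2.1 (by omega)).1⟩
    rw [base]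
    split_ifs with k1 k2
    · exact (h.dnT a b hp.1 hp.2.1 (by omega)).1.trans (by linarith)
    · simpa using h0
    · omega
  · refine ⟨?_, by simpa [up] using h0⟩
    rw [base]
    split_ifs with k1 k2
    · obtain ⟨h1, h2⟩ := h.dnT a b hp.1 hp.2.1 (by omega)
      have := norm_add_le_of_le h2 h1
      rw [sub_add_sub_cancel] at this
      linarith
    · have := (h.dnT (a - 1) b (by omega) hp.2.1 (by omega)).2
      rw [sub_add_cancel] at this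
      exact this.trans (by linarith)
    · simpa using h0

lemma lip (h : Pt N B σ s w col U μ) {m m' : ℤ × ℤ} (hm : Nd N m) (hm' : Nd N m') :
    ‖up μ (base N m') - up μ (base N m)‖ ≤ 4 * (B * σ) * dd m m' :=
  chain (fun p => up μ (base N p))
    (mul_nonneg (by norm_num) (mul_nonneg (zero_le_one.trans h.B1) h.s0)) hm hm'
    fun _ _ a b c _ => (h.step a b c).1

lemma tay (h : Pt N B σ s w col U μ) {m m' : ℤ × ℤ} (hm : Nd N m) (hm' : Nd N m') :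
    ‖(s m' - col m' * U * up μ (base N m')) - (s m - col m * U * up μ (base N m)) -
      up μ (base N m) * (w m' - w m)‖ ≤ 28 * B ^ 2 * (σ * dd m m') ^ 2 := by
  have hB := h.B1
  have h0 := h.s0
  have hd := one_le_dd m m'
  have := chain (fun p => s p - col p * U * up μ (base N p) - up μ (base N m) * w p)
    (A := 28 * B ^ 2 * σ ^ 2 * dd m m') (by positivity) hm hm' fun p p' a b c d => by
      obtain ⟨k1, k2⟩ := h.step a b c
      have k3 := h.h1 p p' a b c.nb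
      have k4 := h.h2 p p' c.nb
      have k5 : ‖w p' - w p + (col p' - col p) * U‖ ≤ 3 * σ + (2 + 2) * (B * σ) :=
        norm_add_le_of_le k4 (norm_mul_le_of_le (norm_sub_le_of_le (h.h6 _) (h.h6 _)) h.h3)
      have k6 := (h.lip hm a).trans (mul_le_mul_of_nonneg_left d (by positivity))
      have k7 := norm_add_le_of_le (norm_sub_le_of_le (norm_add_le_of_le k3
        (norm_mul_le_of_le k5 k2)) (norm_mul_le_of_le (norm_mul_le_of_le (h.h6 p') h.h3) k1))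
        (norm_mul_le_of_le k6 k4)
      refine (congrArg norm (by ring)).trans_le (k7.trans ?_)
      have e1 : B ≤ B ^ 2 := by nlinarith
      have e2 : B * σ ^ 2 ≤ B ^ 2 * σ ^ 2 := by gcongr
      have e3 : B ^ 2 * σ ^ 2 ≤ B ^ 2 * σ ^ 2 * dd m m' := le_mul_of_one_le_right (by positivity) hd
      have e4 : B * σ ^ 2 * dd m m' ≤ B ^ 2 * σ ^ 2 * dd m m' := by gcongr
      nlinarith
  exact (congrArg norm (by ring)).trans_le (this.trans_eq (by ring))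

end Pt

/-! ### Edges -/

lemma far {a b : ℂ} (ha : ‖a‖ = 2) (hb : ‖b‖ = 2) (hab : ‖a + b‖ = 2) (t : ℝ) :
    3 / 2 ≤ ‖b - t * a‖ := by
  have e : ∀ z : ℂ, ‖z‖ ^ 2 = z.re ^ 2 + z.im ^ 2 := fun z => by
    rw [Complex.sq_norm, Complex.normSq_apply]
    ring
  have h1 := e a
  have h2 := e b
  have h3 := e (a + b)
  have h4 := e (b - t * a)
  rw [ha] at h1
  rw [hb] at h2
  rw [hab] at h3
  simp only [Complex.add_re, Complex.add_im, Complex.sub_re, Complex.sub_im, Complex.mul_re,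
    Complex.mul_im, Complex.ofReal_re, Complex.ofReal_im] at h3 h4
  have h5 : ‖b - t * a‖ ^ 2 = 3 + (2 * t + 1) ^ 2 := by
    linear_combination h4 - (t ^ 2 + t) * h1 - (1 + t) * h2 + t * h3
  refine (pow_le_pow_iff_left₀ (by norm_num) (norm_nonneg _) two_ne_zero).1 ?_
  nlinarith [sq_nonneg (2 * t + 1)]

lemma low {a b q U : ℂ} {σ : ℝ} {β β' : ℤ} (hσ : 0 ≤ σ) (ha : ‖a‖ = 2) (hb : ‖b‖ = 2)
    (hab : ‖a + b‖ = 2) (h1 : 1 ≤ |β|) (h2 : |β'| ≤ 2) (k1 : ‖0 - σ * a - β * U‖ ≤ σ / 50)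
    (k2 : ‖q - σ * b - β' * U‖ ≤ σ / 50) : σ ≤ ‖q‖ := by
  have b1 : (1 : ℝ) ≤ |(β : ℝ)| := by exact_mod_cast h1
  have b2 : |(β' : ℝ)| ≤ 2 := by exact_mod_cast h2
  have b0 : (β : ℂ) ≠ 0 := by
    rintro h
    rw [Int.cast_eq_zero.1 h] at h1
    simp at h1
  have b3 : ‖(((β' : ℝ) / β : ℝ) : ℂ)‖ ≤ 2 := by
    rw [Complex.norm_real, Real.norm_eq_abs, abs_div]
    exact (div_le_self (abs_nonneg _) b1).trans b2
  have h3 := mul_le_mul_of_nonneg_left (far ha hb hab ((β' : ℝ) / β)) hσ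
  have h4 := norm_add_le_of_le (norm_sub_le_of_le (le_refl ‖q‖) k2) (norm_mul_le_of_le b3 k1)
  have h5 : q - (q - σ * b - β' * U) + (((β' : ℝ) / β : ℝ) : ℂ) * (0 - σ * a - β * U) =
      σ * (b - (((β' : ℝ) / β : ℝ) : ℂ) * a) := by
    push_cast
    field_simp
    ring
  rw [h5, norm_mul, Complex.norm_real, Real.norm_of_nonneg hσ] at h4
  linarith

/-- The model position of a node. -/
def am (N : ℕ) (i : ℤ) (m : ℤ × ℤ) : ℂ :=
  ((N : ℂ) - m.1 - m.2) * acol (i - 1) + m.1 * acol (i + 1) + m.2 * acol i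

def col (m : ℤ × ℤ) : ℤ := (m.1 - m.2) % 3

variable {r N : ℕ} {K0 τ ε ℓ : ℝ} {ω x w : ℂ} {i : ℤ} {E0 E1 E2 : ℂ[X]}

lemma edge0 (hB : BASIC) (h : CD r N (1 / 3000) K0 τ ε ℓ ω x w i E0 E1 E2) {m m' : ℤ × ℤ}
    (hn : Nb m m') : (1 ≤ |col m' - col m| ∧ |col m' - col m| ≤ 2) ∧ ‖am N i m' - am N i m‖ = 2 ∧
      ∃ Δ : ℂ[X], ebar N E0 E1 E2 m' - ebar N E0 E1 E2 m = C ((N : ℂ)⁻¹) * Δ ∧
        Δ.natDegree ≤ 2 * r ∧ (∀ z ∈ closedBall x 2, ‖Δ.eval z‖ ≤ 2 * K0) ∧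
        ∀ z ∈ closedBall x (3 * ℓ), ‖Δ.eval z - τ * (am N i m' - am N i m)‖ ≤ τ / 1500 := by
  have k : ∀ (P Q : ℂ[X]) (p q : ℤ), p % 3 ≠ q % 3 → P.natDegree ≤ 2 * r → Q.natDegree ≤ 2 * r →
      (∀ z ∈ closedBall x 2, ‖P.eval z‖ ≤ K0 ∧ ‖Q.eval z‖ ≤ K0) →
      (∀ z ∈ closedBall x (3 * ℓ), ‖P.eval z - (w + τ * acol p)‖ ≤ 1 / 3000 * τ ∧
        ‖Q.eval z - (w + τ * acol q)‖ ≤ 1 / 3000 * τ) → am N i m' - am N i m = acol p - acol q →
      ebar N E0 E1 E2 m' - ebar N E0 E1 E2 m = C ((N : ℂ)⁻¹) * (P - Q) →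
      ‖am N i m' - am N i m‖ = 2 ∧
      ∃ Δ : ℂ[X], ebar N E0 E1 E2 m' - ebar N E0 E1 E2 m = C ((N : ℂ)⁻¹) * Δ ∧
        Δ.natDegree ≤ 2 * r ∧ (∀ z ∈ closedBall x 2, ‖Δ.eval z‖ ≤ 2 * K0) ∧
        ∀ z ∈ closedBall x (3 * ℓ), ‖Δ.eval z - τ * (am N i m' - am N i m)‖ ≤ τ / 1500 := by
    intro P Q p q h1 h2 h3 h4 h5 h6 h7
    rw [h6]
    refine ⟨hB.ac3 p q h1, P - Q, h7, (natDegree_sub_le _ _).trans (max_le h2 h3),
      fun z hz => ?_, fun z hz => ?_⟩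
    · rw [eval_sub, two_mul]
      exact norm_sub_le_of_le (h4 z hz).1 (h4 z hz).2
    · rw [eval_sub]
      exact (congrArg norm (by ring)).trans_le
        ((norm_sub_le_of_le (h5 z hz).1 (h5 z hz).2).trans_eq (by ring))
  refine ⟨?_, ?_⟩
  · rw [abs_eq_max_neg]
    rcases hn with rfl | rfl | rfl <;> simp only [col] <;> omega
  rcases hn with rfl | rfl | rfl
  · exact k E1 E0 (i + 1) (i - 1) (by omega) h.d1 h.d0
      (fun z hz => ⟨(h.bd z hz).2.1, (h.bd z hz).1⟩)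
      (fun z hz => ⟨(h.near z hz).2.1, (h.near z hz).1⟩) (by simp only [am]; push_cast; ring)
      (by simp only [ebar]; push_cast; simp only [map_sub, map_add, map_one]; ring)
  · exact k E2 E0 i (i - 1) (by omega) h.d2 h.d0
      (fun z hz => ⟨(h.bd z hz).2.2, (h.bd z hz).1⟩)
      (fun z hz => ⟨(h.near z hz).2.2, (h.near z hz).1⟩) (by simp only [am]; push_cast; ring)
      (by simp only [ebar]; push_cast; simp only [map_sub, map_add, map_one]; ring)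
  · exact k E2 E1 i (i + 1) (by omega) h.d2 h.d1
      (fun z hz => ⟨(h.bd z hz).2.2, (h.bd z hz).2.1⟩)
      (fun z hz => ⟨(h.near z hz).2.2, (h.near z hz).2.1⟩) (by simp only [am]; push_cast; ring)
      (by simp only [ebar]; push_cast; simp only [map_sub, map_add, map_one]; ring)

lemma sig_pos (h : CD r N (1 / 3000) K0 τ ε ℓ ω x w i E0 E1 E2) : 0 < τ / N :=
  div_pos h.t0 (by exact_mod_cast h.N0)

lemma pow3 (h : CD r N (1 / 3000) K0 τ ε ℓ ω x w i E0 E1 E2) :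
    ε * (3 * ℓ) ^ r = 24 ^ r * (τ / N) := by
  rw [h.sig, mul_left_comm, ← mul_pow]
  congr 2
  ring

lemma ubd (h : CD r N (1 / 3000) K0 τ ε ℓ ω x w i E0 E1 E2) {z : ℂ}
    (hz : z ∈ closedBall x (3 * ℓ)) : ‖(ε : ℂ) * (upol r ω x).eval z‖ ≤ 24 ^ r * (τ / N) := by
  rw [← pow3 h, norm_mul, Complex.norm_real, Real.norm_of_nonneg h.e0.le, upol, eval_pow, norm_pow]
  have := h.e0.le
  gcongr
  simpa [h.om, dist_eq_norm] using hz

lemma edge1 (hB : BASIC) (h : CD r N (1 / 3000) K0 τ ε ℓ ω x w i E0 E1 E2) (hr : 1 ≤ r)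
    (hK : 0 < K0) {ε0 : ℝ} (he0 : 0 < ε0) (he : ε0 ≤ ε) (hl : 1200 * r * K0 * ℓ ≤ τ)
    {m m' : ℤ × ℤ} (hn : Nb m m') {P : ℂ[X]}
    (hP : P = tnode N E0 E1 E2 ε (upol r ω x) m' - tnode N E0 E1 E2 ε (upol r ω x) m) :
    ε0 / 2 ≤ ‖(trunc r x P).coeff r‖ ∧ ∀ z ∈ closedBall x (3 * ℓ),
      ‖(ebar N E0 E1 E2 m').eval z - (ebar N E0 E1 E2 m).eval z‖ ≤ 3 * (τ / N) ∧
      ‖P.eval z - (trunc r x P).eval z‖ ≤ 4 * r * K0 * 24 ^ r / (τ * ε0) * (τ / N) ^ 2 ∧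
      ‖(trunc r x P).eval z - (τ / N : ℝ) * (am N i m' - am N i m) -
        (col m' - col m : ℤ) * (ε * (upol r ω x).eval z)‖ ≤ τ / N / 50 := by
  obtain ⟨⟨b1, -⟩, ha, Δ, e, d, b, n⟩ := edge0 hB h hn
  have hσ := sig_pos h
  have h3 := pow3 h
  have hτ := h.t0
  have l0 := h.l0
  have l1 := h.l1
  have e0 := h.e0
  have r1 : (1 : ℝ) ≤ r := by exact_mod_cast hr
  have hN : ‖(N : ℂ)⁻¹‖ = τ / N / τ := by
    rw [norm_inv, Complex.norm_natCast]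
    field_simp
  have b' : ∀ z ∈ closedBall x 1, ‖Δ.eval z‖ ≤ 2 * K0 := fun z hz =>
    b z (closedBall_subset_closedBall (by norm_num) hz)
  have eP : P = C ((N : ℂ)⁻¹) * Δ + C ((ε : ℂ) * (col m' - col m : ℤ)) * upol r ω x := by
    rw [hP, ← e, tnode, tnode, col, col]
    push_cast
    simp only [map_sub, map_mul]
    ring
  have eT : trunc r x P =
      C ((N : ℂ)⁻¹) * trunc r x Δ + C ((ε : ℂ) * (col m' - col m : ℤ)) * upol r ω x := by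
    rw [eP, hB.tadd, hB.tmul, hB.tmul, hB.full _ _ _ (hB.upd r ω x).1]
  refine ⟨?_, fun z hz => ?_⟩
  · have c1 := hB.cau Δ x 1 _ r one_pos b'
    have c2 : ‖jet Δ r x / (r.factorial : ℂ)‖ ≤ 2 * K0 := by
      rw [norm_div, Complex.norm_natCast, div_le_iff₀ (by exact_mod_cast r.factorial_pos)]
      simpa [mul_comm] using c1
    have c3 : (ℓ / 8) ^ r ≤ ℓ :=
      (pow_le_of_le_one (by positivity) (by linarith) (by omega)).trans (by linarith)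
    have c4 : τ / N / τ * (2 * K0) ≤ ε / 2 := by
      rw [h.sig, div_mul_eq_mul_div, div_le_iff₀ hτ]
      have : 4 * K0 * (ℓ / 8) ^ r ≤ τ := by nlinarith [mul_pos hK l0]
      nlinarith
    have c5 : ε ≤ ‖(ε : ℂ) * (col m' - col m : ℤ) * ω ^ r‖ := by
      rw [norm_mul, norm_mul, norm_pow, h.om, one_pow, mul_one, Complex.norm_real,
        Real.norm_of_nonneg e0.le, Complex.norm_intCast]
      exact le_mul_of_one_le_right e0.le (by exact_mod_cast b1)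
    have c6 := norm_mul_le_of_le hN.le c2
    rw [eT, coeff_add, coeff_C_mul, coeff_C_mul, hB.coef, (hB.upd r ω x).2]
    have := norm_sub_le ((N : ℂ)⁻¹ * (jet Δ r x / (r.factorial : ℂ)) +
      (ε : ℂ) * (col m' - col m : ℤ) * ω ^ r) ((N : ℂ)⁻¹ * (jet Δ r x / (r.factorial : ℂ)))
    rw [add_sub_cancel_left] at this
    linarith
  have z1 : ‖z - x‖ ≤ 3 * ℓ := by simpa [dist_eq_norm] using hz
  have t1 := hB.tail r (2 * r) x Δ _ z d b' (by linarith)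
  have t2 : ‖z - x‖ ^ (r + 1) ≤ (3 * ℓ) ^ (r + 1) := by gcongr
  have t3 : (3 * ℓ) ^ (r + 1) ≤ 3 * ℓ := pow_le_of_le_one (by positivity) (by linarith) (by omega)
  have t4 : (3 * ℓ) ^ (r + 1) ≤ 24 ^ r * (τ / N) / ε0 := by
    rw [le_div_iff₀ he0, ← h3, mul_comm]
    exact mul_le_mul he (pow_le_pow_of_le_one (by positivity) (by linarith) (by omega))
      (by positivity) e0.le
  have t5 : P.eval z - (trunc r x P).eval z = (N : ℂ)⁻¹ * (Δ - trunc r x Δ).eval z := by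
    rw [eT, eP]
    simp only [eval_add, eval_mul, eval_C, eval_sub]
    ring
  have t6 : ‖P.eval z - (trunc r x P).eval z‖ ≤ τ / N / τ * (4 * r * K0 * (3 * ℓ) ^ (r + 1)) := by
    rw [t5]
    refine norm_mul_le_of_le hN.le (t1.trans ?_)
    push_cast
    nlinarith [mul_pos hK (zero_lt_one.trans_le r1)]
  have t7 : ‖(N : ℂ)⁻¹ * (Δ.eval z - τ * (am N i m' - am N i m))‖ ≤ τ / N / 1500 :=
    (norm_mul_le_of_le hN.le (n z hz)).trans_eq (by field_simp)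
  refine ⟨?_, t6.trans ?_, ?_⟩
  · have := norm_add_le_of_le t7 (norm_mul_le_of_le
      (show ‖((τ / N : ℝ) : ℂ)‖ ≤ τ / N by rw [Complex.norm_real, Real.norm_of_nonneg hσ.le]) ha.le)
    rw [← eval_sub, e, eval_mul, eval_C]
    refine (congrArg norm ?_).trans_le (this.trans (by linarith))
    push_cast
    ring
  · calc _ ≤ τ / N / τ * (4 * r * K0 * (24 ^ r * (τ / N) / ε0)) := by gcongr
      _ = _ := by field_simp
  · have t8 : τ / N / τ * (4 * r * K0 * (3 * ℓ) ^ (r + 1)) ≤ τ / N / 100 := by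
      calc _ ≤ τ / N / τ * (τ / 100) := by
            gcongr
            nlinarith [mul_pos hK (zero_lt_one.trans_le r1)]
        _ = _ := by field_simp
    refine (congrArg norm ?_).trans_le ((norm_sub_le_of_le t7 (t6.trans t8)).trans (by linarith))
    have : P.eval z = (N : ℂ)⁻¹ * Δ.eval z +
        (ε : ℂ) * (col m' - col m : ℤ) * (upol r ω x).eval z := by
      rw [eP]
      simp only [eval_add, eval_mul, eval_C]
    rw [this]
    push_cast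
    ring

lemma tri {c CL σ ρ : ℝ} (l0 : 0 < ℓ) (hσ : 0 < σ)
    (hL : ∀ (Z : Finset ℂ) (R : ℂ[X]) (δ : ℝ), Pts r c ℓ x Z → R.degree < r →
      (∀ ζ ∈ Z, ‖R.eval ζ‖ ≤ δ) → ∀ z ∈ closedBall x (3 * ℓ), ‖R.eval z‖ ≤ CL * δ)
    {Z : Finset ℂ} (hZ : Pts r c ℓ x Z) {q1 q2 q3 D1 D2 D3 μ1 μ2 μ3 : ℂ[X]} (hq : q2 = q1 + q3)
    (hD : D2 = D1 + D3) (d2 : μ2.degree < r) (d3 : μ3.degree < r)
    (h0 : ∀ ζ ∈ Z, q1.eval ζ = 0)
    (h1 : ∀ z ∈ closedBall x (3 * ℓ), q1.eval z = 0 → σ ≤ ‖q3.eval z‖)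
    (R1 : ∀ z ∈ closedBall x (3 * ℓ), ‖(D1 - q1 * μ1).eval z‖ ≤ ρ * σ ^ 2)
    (R2 : ∀ z ∈ closedBall x (3 * ℓ), ‖(D2 - q2 * μ2).eval z‖ ≤ ρ * σ ^ 2)
    (R3 : ∀ z ∈ closedBall x (3 * ℓ), ‖(D3 - q3 * μ3).eval z‖ ≤ ρ * σ ^ 2) :
    ∀ z ∈ closedBall x (3 * ℓ), ‖μ2.eval z - μ3.eval z‖ ≤ CL * (3 * ρ * σ) := by
  intro z hz
  rw [← eval_sub]
  refine hL Z _ _ hZ ((degree_sub_le _ _).trans_lt (max_lt d2 d3)) (fun ζ hζ => ?_) z hz
  have m : ζ ∈ closedBall x (3 * ℓ) := by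
    rw [mem_closedBall, dist_eq_norm]
    linarith [hZ.box ζ hζ]
  have k := norm_sub_le_of_le (norm_add_le_of_le (R1 ζ m) (R3 ζ m)) (R2 ζ m)
  have e : (D1 - q1 * μ1).eval ζ + (D3 - q3 * μ3).eval ζ - (D2 - q2 * μ2).eval ζ =
      q3.eval ζ * (μ2 - μ3).eval ζ := by
    simp only [hq, hD, eval_add, eval_sub, eval_mul, h0 ζ hζ]
    ring
  rw [e, norm_mul] at k
  have := mul_le_mul_of_nonneg_right (h1 ζ m (h0 ζ hζ)) (norm_nonneg ((μ2 - μ3).eval ζ))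
  exact le_of_mul_le_mul_left (by linarith) hσ

/-! ### The row -/

theorem node : R_NODE := by
  intro hB hLAG hDIV r hr c K0 τ ε0 C1 hc hK hτ he0 hC1
  obtain ⟨CL, hCL, hL⟩ := hLAG r c hr hc
  obtain ⟨Cd, hCd, hD⟩ := hDIV r c hr hc
  have r0 : (0 : ℝ) < r := by exact_mod_cast hr
  obtain ⟨Kμ, eμ⟩ : ∃ y, y = Cd * 42 / (ε0 / 2) := ⟨_, rfl⟩
  obtain ⟨Kδ, eδ⟩ : ∃ y, y = Cd * C1 * 64 ^ r / ε0 ^ 2 := ⟨_, rfl⟩
  obtain ⟨Kt, et⟩ : ∃ y, y = 4 * r * K0 * 24 ^ r / (τ * ε0) := ⟨_, rfl⟩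
  have pμ : 0 < Kμ := by rw [eμ]; positivity
  have pδ : 0 < Kδ := by rw [eδ]; positivity
  have pt : 0 < Kt := by rw [et]; positivity
  obtain ⟨B, B1, B2, B3, B4, B5⟩ : ∃ B : ℝ, 1 ≤ B ∧ Kδ + Kt * Kμ ≤ B ∧ 24 ^ r ≤ B ∧ 6 * Kμ ≤ B ∧
      CL * (3 * Kδ) ≤ B :=
    ⟨max 1 (max _ (max _ (max _ _))), le_max_left _ _, le_max_of_le_right (le_max_left _ _),
      le_max_of_le_right (le_max_of_le_right (le_max_left _ _)),
      le_max_of_le_right (le_max_of_le_right (le_max_of_le_right (le_max_left _ _))),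
      le_max_of_le_right (le_max_of_le_right (le_max_of_le_right (le_max_right _ _)))⟩
  refine ⟨28 * B ^ 2, min (1 / C1) (τ / (1200 * r * K0)), by positivity, by positivity, ?_⟩
  intro N ε ℓ ω x w i E0 E1 E2 Lk S h he hl hLk hS hlk
  have l0 := h.l0
  have l1 := h.l1
  have hσ := sig_pos h
  have l2 : C1 * ℓ ≤ 1 := by
    have := (le_div_iff₀ hC1).1 (hl.trans (min_le_left _ _))
    linarith
  have l3 : 1200 * r * K0 * ℓ ≤ τ := by
    have := (le_div_iff₀ (by positivity)).1 (hl.trans (min_le_right _ _))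
    linarith
  have s1 : closedBall x (3 * ℓ) ⊆ closedBall x (1 / 2) :=
    closedBall_subset_closedBall (by linarith)
  have s2 : closedBall x (3 * ℓ) ⊆ closedBall x 1 := closedBall_subset_closedBall (by linarith)
  have hE := fun m m' (hn : Nb m m') => edge1 hB h hr hK he0 he l3 hn rfl
  rw [← et] at hE
  set T := tnode N E0 E1 E2 ε (upol r ω x) with hT
  have d1 : C1 * ℓ ^ (2 * r) ≤ 42 * ℓ ^ (r - 1) := by
    rw [show 2 * r = 1 + r + (r - 1) by omega, pow_add, pow_add, pow_one, ← mul_assoc, ← mul_assoc]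
    have : ℓ ^ r ≤ 1 := pow_le_one₀ l0.le (by linarith)
    gcongr
    nlinarith [pow_pos l0 r, mul_pos hC1 l0]
  have d2 : Cd * (C1 * ℓ ^ (2 * r)) ≤ Kδ * (τ / N) ^ 2 := by
    have e : ℓ ^ (2 * r) = 64 ^ r * ((ℓ / 8) ^ r) ^ 2 := by
      rw [← pow_mul, mul_comm r 2, pow_mul, pow_mul, ← mul_pow]
      congr 1
      ring
    calc _ = Kδ * (ε0 * (ℓ / 8) ^ r) ^ 2 := by
          rw [e, eδ]
          field_simp
      _ ≤ _ := by
          rw [h.sig]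
          gcongr
  have hex : ∀ m m', ∃ μ : ℂ[X], Nd N m → Nd N m' → Nb m m' → μ.degree < r ∧
      (∀ z ∈ closedBall x (3 * ℓ),
        ‖(S m' - S m - trunc r x (T m' - T m) * μ).eval z‖ ≤ Kδ * (τ / N) ^ 2) ∧
      ∀ z ∈ closedBall x 1, ‖μ.eval z‖ ≤ Kμ := by
    intro m m'
    by_cases k : Nd N m ∧ Nd N m' ∧ Nb m m'
    swap
    · exact ⟨0, fun a b c => (k ⟨a, b, c⟩).elim⟩
    obtain ⟨a, b, n⟩ := k
    obtain ⟨μ, k1, k2, k3⟩ := hD ℓ x (Lk m m') (trunc r x (T m' - T m)) (S m' - S m) (ε0 / 2)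
      (C1 * ℓ ^ (2 * r)) 42 l0 l1 (hLk m m' n).1 (hB.ndeg _ _ _) (hLk m m' n).2 (by positivity)
      (hE m m' n).1 ((degree_sub_le _ _).trans_lt (max_lt (hS m' b).1 (hS m a).1))
      (fun z hz => by
        have hz' := closedBall_subset_closedBall (by norm_num : (1 : ℝ) ≤ 2) hz
        rw [eval_sub]
        exact (norm_sub_le_of_le ((hS m' b).2 z hz') ((hS m a).2 z hz')).trans_eq (by norm_num))
      (hlk m m' a b n) d1
    exact ⟨μ, fun _ _ _ => ⟨k1, fun z hz => (k2 z hz).trans d2, eμ ▸ k3⟩⟩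
  choose μ hμ using hex
  have hcol : ∀ m, ‖((col m : ℤ) : ℂ)‖ ≤ 2 := fun m => by
    have : |col m| ≤ 2 := by
      rw [abs_eq_max_neg, col]
      omega
    rw [Complex.norm_intCast]
    exact_mod_cast this
  have hP : ∀ z ∈ closedBall x (3 * ℓ), Pt N B (τ / N) (fun m => (S m).eval z)
      (fun m => (ebar N E0 E1 E2 m).eval z) (fun m => (col m : ℤ)) (ε * (upol r ω x).eval z)
      fun m m' => (μ m m').eval z := by
    intro z hz
    refine ⟨B1, hσ.le, fun m m' a b n => ?_, fun m m' n => ((hE m m' n).2 z hz).1,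
      (ubd h hz).trans (by gcongr), fun m m' a b n => ((hμ m m' a b n).2.2 z (s2 hz)).trans
        (by linarith), fun m m' m'' a b b' n1 n3 n2 => ?_, hcol⟩
    · have k := norm_sub_le_of_le ((hμ m m' a b n).2.1 z hz)
        (norm_mul_le_of_le ((hE m m' n).2 z hz).2.1 ((hμ m m' a b n).2.2 z (s2 hz)))
      refine (congrArg norm ?_).trans_le (k.trans (by nlinarith [sq_nonneg (τ / N)]))
      simp only [hT, tnode, col, eval_sub, eval_add, eval_mul, eval_C]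
      ring
    · obtain ⟨⟨c1, c2⟩, c3, -⟩ := edge0 hB h n1
      obtain ⟨⟨c4, c5⟩, c6, -⟩ := edge0 hB h n3
      obtain ⟨-, c7, -⟩ := edge0 hB h n2
      have q : trunc r x (T m'' - T m) = trunc r x (T m' - T m) + trunc r x (T m'' - T m') := by
        rw [← hB.tadd, sub_add_sub_cancel']
      have k : CL * (3 * Kδ * (τ / N)) ≤ B * (τ / N) := by nlinarith
      exact ⟨(tri l0 hσ (fun Z R δ => hL ℓ x Z R δ l0) (hLk _ _ n3).1 (q.trans (add_comm _ _))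
          (sub_add_sub_cancel _ _ _).symm (hμ _ _ a b' n2).1 (hμ _ _ a b n1).1 (hLk _ _ n3).2
          (fun y hy e => low hσ.le c6 c3 (by rwa [sub_add_sub_cancel]) c4 c2
            (e ▸ ((hE _ _ n3).2 y hy).2.2) ((hE _ _ n1).2 y hy).2.2)
          (hμ _ _ b b' n3).2.1 (hμ _ _ a b' n2).2.1 (hμ _ _ a b n1).2.1 z hz).trans k,
        (tri l0 hσ (fun Z R δ => hL ℓ x Z R δ l0) (hLk _ _ n1).1 q
          (sub_add_sub_cancel' _ _ _).symm (hμ _ _ a b' n2).1 (hμ _ _ b b' n3).1 (hLk _ _ n1).2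
          (fun y hy e => low hσ.le c3 c6 (by rwa [sub_add_sub_cancel']) c1 c5
            (e ▸ ((hE _ _ n1).2 y hy).2.2) ((hE _ _ n3).2 y hy).2.2)
          (hμ _ _ a b n1).2.1 (hμ _ _ a b' n2).2.1 (hμ _ _ b b' n3).2.1 z hz).trans k⟩
  have hν : ∀ z ∈ closedBall x 1, ∀ m, Nd N m → ‖(up μ (base N m)).eval z‖ ≤ Kμ := fun z hz m a =>
    (hμ _ _ (base_nd h.N0 a).1 (base_nd h.N0 a).2.1 (base_nd h.N0 a).2.2).2.2 z hz
  have BB : B ≤ B ^ 2 := by nlinarith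
  refine ⟨fun m z => (S m).eval z - (col m : ℤ) * (ε * (upol r ω x).eval z) *
    (up μ (base N m)).eval z, fun m z => (up μ (base N m)).eval z, fun z hz m a => ?_,
    fun z hz m a => (hν z (s2 hz) m a).trans (by linarith), fun z hz m a => ?_,
    fun z hz m m' a b => ((hP z hz).lip a b).trans ?_, fun z hz m m' a b => (hP z hz).tay a b⟩
  · rw [sub_sub_cancel_left, norm_neg]
    refine (norm_mul_le_of_le (norm_mul_le_of_le (hcol m) (hP z hz).h3)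
      ((hν z (s2 hz) m a).trans (by linarith : Kμ ≤ B))).trans ?_
    nlinarith [mul_pos (by positivity : 0 < B ^ 2) hσ]
  · have k := hB.lip (up μ (base N m)) 0 (closedBall x (1 / 2)) (2 * Kμ) (convex_closedBall _ _)
      (fun y hy => (hB.cau _ y (1 / 2) Kμ _ (by norm_num) fun u hu => hν u (by
        rw [mem_closedBall] at *
        linarith [dist_triangle u y x]) m a).trans_eq (by simp [mul_comm]))
      x (mem_closedBall_self (by norm_num)) z (s1 hz)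
    rw [hB.j0, hB.j0] at k
    have z1 : ‖z - x‖ ≤ 3 * ℓ := by simpa [dist_eq_norm] using hz
    calc _ ≤ 2 * Kμ * (3 * ℓ) := k.trans (by gcongr)
      _ ≤ _ := by nlinarith
  · have := mul_pos hσ (zero_lt_one.trans_le (one_le_dd m m'))
    nlinarith

end

end Pool.Agent.MP_d32a63_an.H5
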